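import Mathlib
import Pool.Agent.P.MP_ba7db8_lc.Defs
import Pool.Agent.P.MP_0f810e_lc.Defs
import Pool.Agent.P.MP_0f810e_lc.Main

namespace Pool.Agent.Results.MP_0f810e_lc.CoNPHard

open Pool.Agent.P.MP_ba7db8_lc Pool.Agent.P.MP_0f810e_lc Turing

theorem result (L : Set (List Bool)) (hL : InNP L) :
    (∃ f : List Bool → List Bool, Nonempty (TM2ComputableInPolyTime id id f) ∧
      ∀ x, ∃ (N : ℕ) (G : SimpleGraph (Fin N)), f x = adjBits G ∧ Braced G ∧ GenRigid G ∧
        (x ∈ L ↔ ¬ PropC G)) ∧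
    ∀ A : List Bool → Bool, Nonempty (TM2ComputableInPolyTime id Computability.encodeBool A) →
      (∀ (N : ℕ) (G : SimpleGraph (Fin N)), Braced G → GenRigid G →
        (A (adjBits G) = true ↔ PropC G)) →
      ∃ B : List Bool → Bool, Nonempty (TM2ComputableInPolyTime id Computability.encodeBool B) ∧
        ∀ x, B x = true ↔ x ∈ L :=
  main' L hL

end Pool.Agent.Results.MP_0f810e_lc.CoNPHard
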